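import Pool.Agent.P.MP_6d14ae_al.T.Geo

/-! The top layer of a prime cannot carry the full prime power of the degree. -/

set_option autoImplicit false

namespace Pool.Agent.P.MP_6d14ae_al.T

open MulAction
open S hiding Dat Lay c_one c_div facN ext_b triK next chi chi_one

variable {G X A C : Type} [Group G] [Finite G] [Group.IsSolvable G] [MulAction G X]
  [IsPretransitive G X] [AddCommGroup A] [DistribMulAction G A] [AddCommGroup C]
  [DistribMulAction G C] {K N : Subgroup G}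

theorem fin7 (e : Dat G X C) {p a : ℕ} (hp : p.Prime) (he : e.N2 = p ^ a) (hpN : e.N1.Coprime p)
    (Y : AddSubgroup C) (hY : ∀ (g : G) v, v ∈ Y → g • v ∈ Y) (Y0 : Y ≠ ⊤) (Δ : Subgroup G)
    (hΔ : ∀ g, g ∈ Δ ↔ ∀ v, g • v - v ∈ Y) (x : X) (hx : ∀ u ∈ e.W, u • e.b x - e.b x ∈ Y)
    (h : ∀ u ∈ e.W, u ∈ Δ → e.c u ∈ Y) : False := by
  have hn : Δ.Normal := ⟨fun g hg k => (hΔ _).2 fun v => by
    simpa [smul_sub, mul_smul] using hY k _ ((hΔ g).1 hg (k⁻¹ • v))⟩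
  by_cases h0 : Δ = ⊤
  · refine Y0 (eq_top_iff.2 fun v _ => ?_)
    obtain ⟨u, hu, rfl⟩ := e.hs v
    exact h u hu (h0 ▸ trivial)
  obtain ⟨q, hq, M, hM, hl, -, h2⟩ := elem' Δ h0
  refine hl.not_ge fun m hm => (hΔ m).2 ?_
  revert m
  by_cases hpq : q = p
  · subst hpq
    refine all_b (d := e) hY hM x fun m hm => ?_
    obtain ⟨u, hu, e1⟩ := e.hs (e.c m)
    have h3 : u⁻¹ * m ∈ Δ := cop Δ hpN
      (e.hP (u⁻¹ * m) (by rw [c_div, e1, sub_self, smul_zero]) ▸ Δ.one_mem)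
      (h2 _ (mul_mem (inv_mem (facN e M hM hm hu e1)) hm))
    simpa [smul_sub, mul_smul] using Y.add_mem (hY u _ ((hΔ _).1 h3 (e.b x))) (hx u hu)
  · have h1 : ∀ m ∈ M, e.c m ∈ Y := fun m hm => by
      obtain ⟨u, hu, e1⟩ := e.hs (e.c m)
      exact e1 ▸ h u hu (cop Δ (((Nat.coprime_primes hq hp).2 hpq).pow_right a)
        (h2 u (facN e M hM hm hu e1)) (he ▸ e.hW u hu ▸ Δ.one_mem))
    intro m hm v
    obtain ⟨w, -, rfl⟩ := e.hs v
    have h3 := Y.sub_mem (hY w _ (h1 _ (hM.conj_mem' m hm w))) (h1 m hm)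
    rw [mul_assoc, c_div, smul_inv_smul, e.hc] at h3
    convert h3 using 1
    abel

theorem core [FaithfulSMul G X] (d : Dat G X A) (e : Dat G X C) {r p b a : ℕ} (hr : r.Prime)
    (hp : p.Prime) (hrp : r ≠ p) (hd : d.N2 = r ^ b) (he : e.N2 = p ^ a) (hpN : e.N1.Coprime p)
    (hC : ∀ v : C, p ^ a • v = 0) (H : ∀ i, 0 < i → p ^ (i + 1) ∣ Nat.card X → ¬r ∣ p ^ i - 1)
    (hZ : ∀ u ∈ e.W, d.c u = 0)
    (hH : ∀ g, (∃ w ∈ d.W, ∃ u ∈ e.W, g = w * u) ↔ ∃ u ∈ e.W, ∃ w ∈ d.W, g = u * w)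
    {B : AddSubgroup A} (hN : N.Normal) (I : Lay d K B) (hl : K < N)
    (h1 : ∀ a ∈ N, ∀ b ∈ N, a * b * a⁻¹ * b⁻¹ ∈ K) (h2 : ∀ a ∈ N, a ^ p ∈ K)
    (min : ∀ M : Subgroup G, M.Normal → K < M → M ≤ N → N ≤ M)
    (h3 : ∀ k ∈ KK X N hN, ∀ v, k • v - v ∈ B) (hW : d.W ≤ KK X N hN) (hWK : ¬d.W ≤ K) :
    False := by
  have hK := I.nor
  have hL := KK_normal (X := X) N hN
  have hle : N ≤ KK X N hN := fun n hn => mem_KK.2 fun y => ⟨n, hn, rfl⟩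
  have cp : (r ^ b).Coprime p := ((Nat.coprime_primes hr hp).2 hrp).pow_left b
  have c1 : ∀ y : X, ∀ a ∈ N, ∀ b ∈ N, a * b * a⁻¹ * b⁻¹ ∈ DD K hK y :=
    fun y a ha b hb => le_DD K hK y (h1 a ha b hb)
  have fac : ∀ y : X, Nat.card X = (stabilizer G y).relIndex (DD K hK y) *
      (DD K hK y).relIndex N * (DD N hN y).index := fun y => by
    rw [← rel_eq hK hN, Subgroup.relIndex_mul_relIndex _ _ _ (st_le K hK y)
      (DD_mono hK hN hl.le y), Subgroup.relIndex_mul_index (st_le N hN y),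
      index_stabilizer_of_transitive]
  have IR := fun (y : X) (ρ : G) (h : ρ ∈ KK X N hN) (h' : ρ ^ r ^ b = 1) (h'' : ¬tv hK N y ρ) =>
    irr (DD K hK y) N hp hr hrp H (fac y ▸ (dvd_mul_left _ _).mul_right _) (c1 y)
      (fun a ha => le_DD K hK y (h2 a ha)) ρ h' (norL hK hN h1 y h) h''
  have ex : ∀ w ∈ d.W, w ∉ K → ∃ y : X, ¬tv hK N y w := fun w hw h => not_forall.1
    (mt (inK hK hN I.clo h2 cp (hW hw) (hd ▸ d.hW w hw)) h)
  obtain ⟨w0, hw0, w0K⟩ := SetLike.not_le_iff_exists.1 hWK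
  obtain ⟨y0, hy0⟩ := ex w0 hw0 w0K
  have exa : ∀ y : X, ∃ ρ ∈ KK X N hN, ρ ^ r ^ b = 1 ∧ ¬tv hK N y ρ := fun y => by
    obtain ⟨g, rfl⟩ := exists_smul_eq G y0 y
    refine ⟨_, hL.conj_mem w0 (hW hw0) g, by rw [conj_pow, ← hd, d.hW w0 hw0]; simp, fun h => hy0 ?_⟩
    simpa [mul_assoc] using tv_conj hK hN g⁻¹ h
  have np : ∀ y : X, ¬p ∣ (stabilizer G y).relIndex (DD K hK y) ∧ ¬p ∣ (DD N hN y).index :=
    fun y => by
      obtain ⟨ρ, a1, a2, a3⟩ := exa y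
      have := (IR y ρ a1 a2 a3).1
      rw [fac y] at this
      exact ⟨fun h => this ((mul_dvd_mul_right h _).mul_right _),
        fun h => this (by rw [mul_comm p, mul_assoc]; exact (mul_dvd_mul_left _ h).mul_left _)⟩
  obtain ⟨B', J⟩ := up (d := e) hK I.clo (fun y => he ▸
    (hp.coprime_iff_not_dvd.2 (np y).1).pow_left a) ⊥ ⊥ (lay_bot e) bot_le
  have := Fact.mk hp
  have hP : IsPGroup p e.W := fun u => ⟨a, Subtype.ext (he ▸ e.hW u u.2)⟩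
  obtain ⟨⟨g1⟩, hg1⟩ := hP.nonempty_fixed_point_of_prime_not_dvd_card (G ⧸ DD N hN y0) (np y0).2
  have hx : ∀ u ∈ e.W, ∃ n ∈ N, u • g1 • y0 = n • g1 • y0 := fun u hu => by
    have h4 : (u * g1)⁻¹ * g1 ∈ DD N hN y0 := QuotientGroup.eq.1 (hg1 ⟨u, hu⟩)
    have h5 : u ∈ DD N hN (g1 • y0) := by
      simpa [mul_assoc] using DD_conj hN g1 (inv_mem h4)
    exact h5
  generalize g1 • y0 = x at hx
  obtain ⟨w1, hw1, e1⟩ := d.hs (d.b x)
  obtain ⟨y1, hy1⟩ := ex w1 hw1 fun h => hWK fun w hw => (I.iff w hw).1 (by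
    have : B = ⊤ := eq_top_iff.2 (d.hg ▸ (AddSubgroup.closure_le _).2 (by
      rintro _ ⟨y, rfl⟩
      obtain ⟨g, rfl⟩ := exists_smul_eq G x y
      rw [d.hb, ← e1]
      exact I.sta _ _ ((I.iff w1 hw1).2 h)))
    rw [this]; trivial)
  have CM := @com G X C _ _ _ _ K N hN e B'
  have ex2 : ∃ ρ ∈ KK X N hN, ∃ n ∈ N, n⁻¹ * ρ * n * ρ⁻¹ ∉ K := by
    by_contra! h
    exact hy0 fun n hn => le_DD K hK y0 (h w0 (hW hw0) n hn)
  have fp : ∀ n ∈ N, ∃ u ∈ e.W, e.c u = e.c n ∧ u⁻¹ * n ∈ K := fun n hn => by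
    obtain ⟨u, hu, e2⟩ := e.hs (e.c n)
    exact ⟨u, hu, e2, cop K hpN
      (e.hP (u⁻¹ * n) (by rw [c_div, e2, sub_self, smul_zero]) ▸ K.one_mem)
      (h2 _ (mul_mem (inv_mem (facN e N hN hn hu e2)) hn))⟩
  have : Finite C := Finite.of_surjective e.c fun v => let ⟨w, _, h⟩ := e.hs v; ⟨w, h⟩
  obtain ⟨D, ⟨hD, BD, nD⟩, mx⟩ := wellFounded_gt.has_min {D : AddSubgroup C |
      (∀ (g : G) v, v ∈ D → g • v ∈ D) ∧ B' ≤ D ∧ ¬∀ n ∈ N, ∀ v, n • v - v ∈ D}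
    ⟨B', J.sta, le_rfl, fun h => hl.not_ge fun n hn => by
      obtain ⟨u, hu, e2, e3⟩ := fp n hn
      simpa using mul_mem ((J.iff u hu).1 (e2 ▸ CM J hl min ex2 J.sta le_rfl h n hn)) e3⟩
  let Y := fv D (N : Set G)
  have hY : ∀ (g : G) v, v ∈ Y → g • v ∈ Y := fv_sta hD fun t ht g => hN.conj_mem' t ht g
  have DY : D ≤ Y := le_fv hD _
  have NY : ∀ n ∈ N, ∀ v, n • v - v ∈ Y := by
    by_contra h
    obtain ⟨v, v0, hv⟩ := fixq hp hC e.W hP hD fun k => nD fun _ _ _ => k ▸ trivial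
    refine mx Y ⟨hY, BD.trans DY, h⟩ ⟨DY, fun k => v0 (k (mem_fv.2 fun n hn => ?_))⟩
    obtain ⟨u, hu, -, e3⟩ := fp n hn
    simpa [smul_sub, mul_smul] using D.add_mem (hD u _ (BD (J.tri _ e3 v))) (hv u hu)
  let Δ : Subgroup G := ⨅ v, fx Y hY v
  have hΔ : ∀ g, g ∈ Δ ↔ ∀ v, g • v - v ∈ Y := fun g => Subgroup.mem_iInf
  have nΔ : Δ.Normal := ⟨fun g hg k => (hΔ _).2 fun v => by
    simpa [smul_sub, mul_smul] using hY k _ ((hΔ g).1 hg (k⁻¹ • v))⟩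
  have nor : ∀ y : X, ∀ g ∈ Δ, ∀ n ∈ N, n ∈ DD K hK y → g * n * g⁻¹ ∈ DD K hK y := fun y => by
    have inv : ∀ g ∈ Δ, ∀ m ∈ N ⊓ fx D hD (e.b y), g * m * g⁻¹ ∈ N ⊓ fx D hD (e.b y) :=
      fun g hg m hm => ⟨hN.conj_mem m hm.1 g, by
        have := hD g _ (D.add_mem hm.2 (mem_fv.1 ((hΔ _).1 (inv_mem hg) (e.b y)) m hm.1))
        show (g * m * g⁻¹) • e.b y - e.b y ∈ D
        convert this using 1
        simp only [smul_sub, smul_add, mul_smul, smul_inv_smul]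
        abel⟩
    have l : DD K hK y ⊓ N ≤ N ⊓ fx D hD (e.b y) := fun m ⟨⟨k, hk, e2⟩, hm⟩ => ⟨hm, by
      show m • e.b y - e.b y ∈ D
      rw [← e.hb, e2, e.hb]
      exact BD (J.tri k hk _)⟩
    obtain ⟨ρ, a1, a2, a3⟩ := exa y
    have l2 := ((IR y ρ a1 a2 a3).2 _ l inf_le_left (inv ρ ((hΔ ρ).2 (ext_b e Y ρ fun z => by
      obtain ⟨n, hn, e2⟩ := mem_KK.1 a1 z
      rw [← e.hb, e2, e.hb]
      exact NY n hn _)))).resolve_right fun h => nD (all_b (d := e) hD hN y fun m hm => (h hm).2)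
    exact fun g hg n hn h => l2 (inv g hg n (l ⟨h, hn⟩))
  have cN : ∀ g : G, ∀ n ∈ N, n⁻¹ * g * n * g⁻¹ ∈ N := fun g n hn => by
    simpa [mul_assoc] using mul_mem (inv_mem hn) (hN.conj_mem n hn g)
  have wΔ : w1 ∈ Δ := (hΔ _).2 (ext_b e Y _ fun z => by
    obtain ⟨n, hn, e2⟩ := mem_KK.1 (hW hw1) z
    rw [← e.hb, e2, e.hb]
    exact NY n hn _)
  have g1 : ∀ u ∈ e.W ⊓ Δ, tv hK N y1 u := by
    obtain ⟨F, a1, a2⟩ := cnt (DD K hK y1) N (e.W ⊓ Δ) hp (hP.to_le inf_le_left) (c1 y1)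
      (fun u _ n hn => hN.conj_mem n hn u) fun u hu => nor y1 u hu.2
    suffices a3 : N ≤ F from fun u hu n hn => ((a1 n).1 (a3 hn)).2 u hu
    refine ((IR y1 w1 (hW hw1) (hd ▸ d.hW w1 hw1) hy1).2 F (fun m hm => (a1 m).2 ⟨hm.2,
      fun u hu => by
        have := (DD K hK y1).mul_mem ((DD K hK y1).inv_mem hm.1) (nor y1 u hu.2 m hm.2 hm.1)
        simpa [mul_assoc] using this⟩)
      (fun m hm => ((a1 m).1 hm).1) fun m hm => (a1 _).2
        ⟨hN.conj_mem m ((a1 m).1 hm).1 w1, fun u hu => ?_⟩).resolve_left fun h => ?_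
    swap
    · obtain ⟨i, hi⟩ := pw _ N hp (c1 y1) fun a ha => le_DD K hK y1 (h2 a ha)
      rw [Subgroup.relIndex_eq_one.2 h, hi] at a2
      rcases i with _ | i
      · exact hy1 fun n hn => Subgroup.relIndex_eq_one.1 hi (cN w1 n hn)
      · exact hp.one_lt.ne' (Nat.dvd_one.1 ((a2.dvd_iff dvd_rfl).1 (dvd_pow_self p i.succ_ne_zero)))
    · obtain ⟨u', hu', w', hw', e2⟩ := (hH (w1⁻¹ * u)).1 ⟨_, inv_mem hw1, u, hu.1, rfl⟩
      have e3 : w1⁻¹ * (u * w1) = u' * (w' * w1) := by rw [← mul_assoc, e2, mul_assoc]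
      have e4 : w' * w1 ∈ K := (I.iff _ (mul_mem hw' hw1)).1 (by
        have e5 := congrArg d.c e3
        rw [c_div, d.hc u, d.hc u', hZ u hu.1, hZ u' hu', zero_add, zero_add, e1,
          ← inv_smul_eq_iff] at e5
        obtain ⟨n, hn, e6⟩ := hx u hu.1
        rw [← e5, ← d.hb, e6, d.hb]
        exact I.sta _ _ (I.sta _ _ (h3 n (hle hn) _)))
      have kΔ : w' * w1 ∈ Δ := (hΔ _).2 fun v => DY (BD (J.tri _ e4 v))
      have uΔ : u' ∈ Δ := by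
        have := mul_mem (mul_mem (inv_mem wΔ) (mul_mem hu.2 wΔ)) (inv_mem kΔ)
        rwa [e3, mul_inv_cancel_right] at this
      have m1 := ((a1 m).1 hm).1
      have e7 := mul_mem (((a1 m).1 hm).2 u' ⟨hu', uΔ⟩) (le_DD K hK y1
        (hK.conj_mem _ (mul_mem (hK.conj_mem' _ e4 m) (inv_mem e4)) u'))
      have e8 : u = w1 * (u' * (w' * w1)) * w1⁻¹ := by rw [← e3]; group
      have := nor y1 w1 wΔ _ (by
        refine mul_mem (cN u' m m1) (hl.le ?_)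
        exact hK.conj_mem _ (mul_mem (hK.conj_mem' _ e4 m) (inv_mem e4)) u') e7
      rw [e8]
      convert this using 1
      group
  let Z : Subgroup G :=
    { carrier := {g | g ∈ Δ ∧ tv hK N y1 g}
      one_mem' := ⟨one_mem _, fun n _ => by simp⟩
      mul_mem' := fun {g g'} hg hg' => ⟨mul_mem hg.1 hg'.1, fun n hn => by
        simpa [mul_assoc] using mul_mem (hg.2 n hn) (nor y1 g hg.1 _ (cN g' n hn) (hg'.2 n hn))⟩
      inv_mem' := fun {g} hg => ⟨inv_mem hg.1, fun n hn => by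
        simpa [mul_assoc] using nor y1 _ (inv_mem hg.1) _ (inv_mem (cN g n hn))
          (inv_mem (hg.2 n hn))⟩ }
  have nZ : ∀ g ∈ Δ, ∀ m ∈ Z, g * m * g⁻¹ ∈ Z := fun g hg m hm =>
    ⟨mul_mem (mul_mem hg hm.1) (inv_mem hg), fun n hn => by
      simpa [mul_assoc] using nor y1 g hg _ (cN m _ (hN.conj_mem' n hn g))
        (hm.2 _ (hN.conj_mem' n hn g))⟩
  have g2 : ∀ u ∈ e.W, u ∈ Δ → ∀ n ∈ N, n⁻¹ * u * n * u⁻¹ ∈ K := fun u hu h n hn =>
    I.clo _ fun y => by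
      obtain ⟨g, rfl⟩ := exists_smul_eq G y1 y
      have k1 := nΔ.conj_mem' u h g
      obtain ⟨u', hu', e2⟩ := e.hs (e.c (g⁻¹ * u * g))
      have k2 := facN e Δ nΔ k1 hu' e2
      have k3 := powmod Z Δ nZ (show u' ∈ Z from ⟨k2, g1 u' ⟨hu', k2⟩⟩)
        (mul_mem (inv_mem k2) k1) e.N1
      rw [e.hP (u'⁻¹ * _) (by rw [c_div, e2, sub_self, smul_zero]), mul_inv_cancel_left, inv_one,
        mul_one] at k3
      have k4 := cop Z e.hco k3 (by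
        have := conj_pow (a := g⁻¹) (b := u) (i := e.N2)
        rw [inv_inv, e.hW u hu, mul_one, inv_mul_cancel] at this
        exact this ▸ Z.one_mem)
      have k5 := tv_conj hK hN g k4.2
      rw [show g * (g⁻¹ * u * g) * g⁻¹ = u by group] at k5
      exact k5 n hn
  let T : Set G := {u | u ∈ Δ ∧ ∀ n ∈ N, n⁻¹ * u * n * u⁻¹ ∈ K}
  have g3 := CM (J := fv D T) J hl min ex2 (fv_sta hD fun t ht g =>
    ⟨nΔ.conj_mem' t ht.1 g, fun n hn => by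
      simpa [mul_assoc] using hK.conj_mem' _ (ht.2 _ (hN.conj_mem n hn g)) g⟩)
    (BD.trans (le_fv hD _)) fun n hn v => mem_fv.2 fun u hu => by
      have := D.add_mem (hD n _ (BD (J.tri _ (hu.2 n hn) (u • v))))
        (mem_fv.1 ((hΔ u).1 hu.1 v) n hn)
      convert this using 1
      simp only [smul_sub, mul_smul, inv_smul_smul, smul_inv_smul]
      abel
  refine fin7 e hp he hpN Y hY (fun h => nD fun n hn v => mem_fv.1 (show v ∈ Y from h ▸ trivial) n hn)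
    Δ hΔ x (fun u hu => ?_) fun u hu h => mem_fv.2 fun n hn => ?_
  · obtain ⟨n, hn, e2⟩ := hx u hu
    rw [← e.hb, e2, e.hb]
    exact NY n hn _
  · have k1 := g2 u hu h n hn
    have k2 : e.c (u * n) = e.c (n * (n⁻¹ * u * n * u⁻¹ * u)) := by congr 1; group
    rw [e.hc u n, e.hc n, e.hc _ u] at k2
    have := D.sub_mem (D.sub_mem (mem_fv.1 (g3 n hn) u ⟨h, g2 u hu h⟩) (hD n _ (BD (cK J k1))))
      (hD n _ (BD (J.tri _ k1 (e.c u))))
    convert this using 1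
    rw [smul_sub, eq_sub_of_add_eq' k2, smul_add]
    abel

end Pool.Agent.P.MP_6d14ae_al.T
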