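import Pool.Agent.P.MP_6d14ae_al.T.Fix

/-! The layer step without a condition on the degree. -/

set_option autoImplicit false

namespace Pool.Agent.P.MP_6d14ae_al.T

open MulAction
open S hiding Dat Lay c_one c_div facN ext_b triK next chi chi_one

/-- the data of the layer induction -/
structure Dat (G X A : Type) [Group G] [MulAction G X] [AddCommGroup A]
    [DistribMulAction G A] where
  c : G → A
  W : Subgroup G
  N1 : ℕ
  N2 : ℕ
  b : X → A
  hc : ∀ g h, c (g * h) = c g + g • c h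
  hs : ∀ v, ∃ w ∈ W, c w = v
  hW : ∀ w ∈ W, w ^ N2 = 1
  hP : ∀ g, c g = 0 → g ^ N1 = 1
  hco : N1.Coprime N2
  hb : ∀ (g : G) x, b (g • x) = g • b x
  hg : AddSubgroup.closure (Set.range b) = ⊤

variable {G X A : Type} [Group G] [MulAction G X] [AddCommGroup A] [DistribMulAction G A]
  (d : Dat G X A)

/-- the invariant of a layer -/
structure Lay (K : Subgroup G) (B : AddSubgroup A) : Prop where
  nor : K.Normal
  clo : ∀ g, (∀ y : X, ∃ k ∈ K, g • y = k • y) → g ∈ K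
  sta : ∀ (g : G) v, v ∈ B → g • v ∈ B
  iff : ∀ w ∈ d.W, d.c w ∈ B ↔ w ∈ K
  tri : ∀ k ∈ K, ∀ v, k • v - v ∈ B

theorem c_one : d.c 1 = 0 := by simpa using d.hc 1 1

theorem c_div (g h : G) : d.c (g⁻¹ * h) = g⁻¹ • (d.c h - d.c g) := by
  have := d.hc g (g⁻¹ * h)
  rw [mul_inv_cancel_left] at this
  rw [this, add_sub_cancel_left, inv_smul_smul]

theorem facN (M : Subgroup G) (hM : M.Normal) {m w : G} (hm : m ∈ M) (hw : w ∈ d.W)
    (h : d.c w = d.c m) : w ∈ M := by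
  refine cop M d.hco ?_ (d.hW w hw ▸ M.one_mem)
  have h1 := congrArg (QuotientGroup.mk' M) (d.hP (w⁻¹ * m) (by rw [c_div, h, sub_self, smul_zero]))
  rw [map_pow, map_mul, show QuotientGroup.mk' M m = 1 from (QuotientGroup.eq_one_iff m).2 hm,
    mul_one, map_one, map_inv, inv_pow, inv_eq_one, ← map_pow] at h1
  exact (QuotientGroup.eq_one_iff _).1 h1

theorem ext_b (B : AddSubgroup A) (g : G) (h : ∀ y, g • d.b y - d.b y ∈ B) (v : A) :
    g • v - v ∈ B := by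
  have : B.comap (DistribSMul.toAddMonoidHom A g - AddMonoidHom.id A) = ⊤ :=
    eq_top_iff.2 (d.hg ▸ (AddSubgroup.closure_le _).2 (by rintro _ ⟨y, rfl⟩; exact h y))
  have h1 : v ∈ B.comap (DistribSMul.toAddMonoidHom A g - AddMonoidHom.id A) := this ▸ trivial
  exact h1

variable {d}

theorem triK {K N : Subgroup G} {B : AddSubgroup A} (I : Lay d K B) (hN : N.Normal)
    (h : ∀ w ∈ d.W, w ∈ N → w ∈ K) : ∀ k ∈ KK X N hN, ∀ v, k • v - v ∈ B := by
  have h1 : ∀ n ∈ N, d.c n ∈ B := fun n hn => by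
    obtain ⟨w, hw, e⟩ := d.hs (d.c n)
    exact e ▸ (I.iff w hw).2 (h w hw (facN d N hN hn hw e))
  have h2 : ∀ n ∈ N, ∀ v, n • v - v ∈ B := fun n hn v => by
    obtain ⟨w, -, rfl⟩ := d.hs v
    have h3 := B.sub_mem (I.sta w _ (h1 _ (hN.conj_mem' n hn w))) (h1 n hn)
    rw [mul_assoc, c_div, smul_inv_smul, d.hc] at h3
    convert h3 using 1
    abel
  refine fun k hk => ext_b d B k fun y => ?_
  obtain ⟨n, hn, e⟩ := mem_KK.1 hk y
  rw [← d.hb, e, d.hb]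
  exact h2 n hn _

theorem next {K N : Subgroup G} {B : AddSubgroup A} (I : Lay d K B) (hN : N.Normal) (hl : K ≤ N)
    (h : ∀ k ∈ KK X N hN, ∀ v, k • v - v ∈ B) :
    ∃ B' : AddSubgroup A, Lay d (KK X N hN) B' ∧ ∀ v ∈ B', ∃ q ∈ d.W, q ∈ KK X N hN ∧ d.c q = v := by
  have hK' := KK_normal (X := X) N hN
  have hle : N ≤ KK X N hN := fun n hn => mem_KK.2 fun y => ⟨n, hn, rfl⟩
  let B' : AddSubgroup A :=
    { carrier := {v | ∃ k ∈ KK X N hN, v - d.c k ∈ B}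
      zero_mem' := ⟨1, one_mem _, by simp [c_one]⟩
      add_mem' := by
        rintro v v' ⟨k, hk, e⟩ ⟨k', hk', e'⟩
        refine ⟨k * k', mul_mem hk hk', ?_⟩
        convert B.sub_mem (B.add_mem e e') (h k hk (d.c k')) using 1
        rw [d.hc]; abel
      neg_mem' := by
        rintro v ⟨k, hk, e⟩
        refine ⟨k⁻¹ * 1, mul_mem (inv_mem hk) (one_mem _), ?_⟩
        convert B.sub_mem (h _ (inv_mem hk) (d.c k)) e using 1
        rw [c_div, c_one, zero_sub, smul_neg]; abel }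
  have h1 : ∀ w ∈ d.W, d.c w ∈ B' → w ∈ KK X N hN := by
    rintro w hw ⟨k, hk, e⟩
    obtain ⟨u, hu, e'⟩ := d.hs (d.c k)
    have h2 := (I.iff _ (mul_mem (inv_mem hu) hw)).1 (by rw [c_div, e']; exact I.sta _ _ e)
    simpa using mul_mem (facN d _ hK' hk hu e') (hle (hl h2))
  refine ⟨B', ⟨hK', fun g hg => mem_KK.2 fun y => ?_, ?_,
    fun w hw => ⟨h1 w hw, fun k => ⟨w, k, by simp⟩⟩,
    fun k hk v => ⟨1, one_mem _, by simpa [c_one] using h k hk v⟩⟩, fun v hv => ?_⟩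
  · obtain ⟨k, hk, e⟩ := hg y
    exact e ▸ mem_KK.1 hk y
  · rintro g v ⟨k, hk, e⟩
    refine ⟨_, hK'.conj_mem k hk g, ?_⟩
    have h2 := d.hc (g * k * g⁻¹) g
    rw [inv_mul_cancel_right, d.hc] at h2
    convert B.add_mem (I.sta g _ e) (h _ (hK'.conj_mem k hk g) (d.c g)) using 1
    rw [smul_sub, ← sub_eq_iff_eq_add'] at *
    rw [← h2]; abel
  · obtain ⟨w, hw, rfl⟩ := d.hs v
    exact ⟨w, hw, h1 w hw hv, rfl⟩

/-- the cocycle is a homomorphism on a subgroup that acts trivially -/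
def chi (d : Dat G X A) (B : AddSubgroup A) (L : Subgroup G) (h : ∀ k ∈ L, ∀ v, k • v - v ∈ B) :
    L →* Multiplicative (A ⧸ B) :=
  MonoidHom.mk' (fun k => Multiplicative.ofAdd (d.c k : A ⧸ B)) fun k k' => by
    rw [← ofAdd_add, ← QuotientAddGroup.mk_add, eq_comm]
    refine congrArg _ (QuotientAddGroup.eq.2 ?_)
    convert h k k.2 (d.c k') using 1
    rw [Subgroup.coe_mul, d.hc]; abel

theorem chi_one {B : AddSubgroup A} {L : Subgroup G} {h : ∀ k ∈ L, ∀ v, k • v - v ∈ B} {k : L} :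
    chi d B L h k = 1 ↔ d.c k ∈ B := QuotientAddGroup.eq_zero_iff _

theorem cK {K : Subgroup G} {B : AddSubgroup A} (I : Lay d K B) {k : G} (hk : k ∈ K) :
    d.c k ∈ B := by
  obtain ⟨w, hw, e⟩ := d.hs (d.c k)
  exact e ▸ (I.iff w hw).2 (facN d K I.nor hk hw e)

theorem rel_eq [Finite G] {K N : Subgroup G} (hK : K.Normal) (hN : N.Normal) (y : X) :
    (DD K hK y).relIndex (DD N hN y) = (DD K hK y).relIndex N := le_antisymm
  ((cardle _ (DD N hN y) N Set.univ fun _ ⟨n, hn, e⟩ =>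
    ⟨⟨n, hn⟩, inv_mul_DD K hK e, trivial⟩).trans (Nat.card_univ).le)
  (Subgroup.relIndex_le_of_le_right (le_DD N hN y) Subgroup.index_ne_zero_of_finite)

theorem DD_mono {K N : Subgroup G} (hK : K.Normal) (hN : N.Normal) (h : K ≤ N) (y : X) :
    DD K hK y ≤ DD N hN y := fun _ ⟨k, hk, e⟩ => ⟨k, h hk, e⟩

theorem st_le (K : Subgroup G) (hK : K.Normal) (y : X) : stabilizer G y ≤ DD K hK y :=
  fun _ hg => ⟨1, K.one_mem, hg.trans (one_smul _ _).symm⟩

theorem qd {K N : Subgroup G} (hK : K.Normal)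
    (clo : ∀ g : G, (∀ y : X, ∃ k ∈ K, g • y = k • y) → g ∈ K) (hl : K < N) {q : ℕ} (hq : q.Prime)
    (h1 : ∀ a ∈ N, ∀ b ∈ N, a * b * a⁻¹ * b⁻¹ ∈ K) (h2 : ∀ a ∈ N, a ^ q ∈ K) :
    ∃ y : X, q ∣ (DD K hK y).relIndex N := by
  by_contra! h
  exact hl.not_ge fun n hn => clo n fun y => cop (DD K hK y) (hq.coprime_iff_not_dvd.2 (h y))
    (le_DD K hK y (h2 n hn)) (nidx _ N (fun a ha b hb => le_DD K hK y (h1 a ha b hb)) n hn)

theorem lay_bot [FaithfulSMul G X] (d : Dat G X A) : Lay d ⊥ ⊥ :=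
  ⟨inferInstance, fun g hg => eq_of_smul_eq_smul (α := X) fun y => by
      obtain ⟨k, rfl, e⟩ := hg y
      exact e, fun g v hv => by simp_all,
    fun w hw => ⟨fun e => cop ⊥ d.hco (d.hP w e) (d.hW w hw),
      fun e => by rw [show w = 1 from e]; exact c_one d⟩, fun k hk v => by simp_all⟩

theorem up [Finite G] [Group.IsSolvable G] {K : Subgroup G} (hK : K.Normal)
    (clo : ∀ g : G, (∀ y : X, ∃ k ∈ K, g • y = k • y) → g ∈ K)
    (h : ∀ y : X, d.N2.Coprime ((stabilizer G y).relIndex (DD K hK y))) (K0 : Subgroup G) :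
    ∀ B0, Lay d K0 B0 → K0 ≤ K → ∃ B, Lay d K B := by
  induction K0 using WellFoundedGT.induction with
  | _ K0 ih =>
  intro B0 I l
  rcases l.eq_or_lt with rfl | l
  · exact ⟨B0, I⟩
  have := I.nor
  obtain ⟨q, hq, N, hN, h1, h2, h3, h4, -⟩ := elem2 K0 K l
  obtain ⟨y, hy⟩ := qd I.nor I.clo h1 hq h3 h4
  have h5 : d.N2.Coprime q := (h y).coprime_dvd_right (hy.trans (by
    rw [← rel_eq I.nor hN, ← Subgroup.relIndex_mul_relIndex _ _ _ (st_le K0 I.nor y)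
      (DD_mono I.nor hK l.le y), ← Subgroup.relIndex_mul_relIndex _ _ _
      (DD_mono I.nor hN h1.le y) (DD_mono hN hK h2 y)]
    exact (dvd_mul_right _ _).mul_left _))
  obtain ⟨B', I', -⟩ := next I hN h1.le
    (triK I hN fun w hw hn => cop K0 h5 (d.hW w hw ▸ K0.one_mem) (h4 w hn))
  exact ih _ (h1.trans_le fun n hn => mem_KK.2 fun y => ⟨n, hn, rfl⟩) B' I'
    fun g hg => clo g fun y => let ⟨n, hn, e⟩ := mem_KK.1 hg y; ⟨n, h2 hn, e⟩

theorem find [Finite G] [Group.IsSolvable G] [IsPretransitive G X]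
    (hn : d.N2.Coprime (Nat.card X)) (K0 : Subgroup G) :
    ∀ B0, Lay d K0 B0 → ¬d.W ≤ K0 → ∃ (K N : Subgroup G) (B : AddSubgroup A) (p : ℕ)
      (hN : N.Normal), Lay d K B ∧ p.Prime ∧ p ∣ Nat.card X ∧ K < N ∧
      (∀ a ∈ N, ∀ b ∈ N, a * b * a⁻¹ * b⁻¹ ∈ K) ∧ (∀ a ∈ N, a ^ p ∈ K) ∧
      (∀ M : Subgroup G, M.Normal → K < M → M ≤ N → N ≤ M) ∧
      (∀ k ∈ KK X N hN, ∀ v, k • v - v ∈ B) ∧ d.W ≤ KK X N hN ∧ ¬d.W ≤ K := by
  induction K0 using WellFoundedGT.induction with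
  | _ K0 ih =>
  intro B0 I l
  have := I.nor
  obtain ⟨q, hq, N, hN, h1, -, h3, h4, h5⟩ := elem2 K0 ⊤ (lt_top_iff_ne_top.2 fun e =>
    l (e ▸ le_top))
  obtain ⟨y, hy⟩ := qd I.nor I.clo h1 hq h3 h4
  have h6 : q ∣ Nat.card X := hy.trans (by
    rw [← rel_eq I.nor hN, ← index_stabilizer_of_transitive G y]
    exact (Subgroup.relIndex_dvd_index_of_le (DD_mono I.nor hN h1.le y)).trans
      (Subgroup.index_dvd_of_le (st_le K0 I.nor y)))
  have h7 := triK I hN fun w hw e =>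
    cop K0 (hn.coprime_dvd_right h6) (d.hW w hw ▸ K0.one_mem) (h4 w e)
  by_cases h : d.W ≤ KK X N hN
  · exact ⟨K0, N, B0, q, hN, I, hq, h6, h1, h3, h4, h5, h7, h, l⟩
  · obtain ⟨B', I', -⟩ := next I hN h1.le h7
    exact ih _ (h1.trans_le fun n hn => mem_KK.2 fun y => ⟨n, hn, rfl⟩) B' I' h

end Pool.Agent.P.MP_6d14ae_al.T
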