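import Pool.Agent.P.MP_6d14ae_al.S.Base

/-! Fixed point counts on a section of a group; irreducibility from arithmetic. -/

set_option autoImplicit false

namespace Pool.Agent.P.MP_6d14ae_al.T

open MulAction S

variable {G : Type} [Group G]

theorem elem2 [Finite G] [Group.IsSolvable G] (K L : Subgroup G) [hK : K.Normal] [hL : L.Normal]
    (h : K < L) : ∃ s : ℕ, s.Prime ∧ ∃ N : Subgroup G, N.Normal ∧ K < N ∧ N ≤ L ∧
      (∀ a ∈ N, ∀ b ∈ N, a * b * a⁻¹ * b⁻¹ ∈ K) ∧ (∀ a ∈ N, a ^ s ∈ K) ∧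
      ∀ M : Subgroup G, M.Normal → K < M → M ≤ N → N ≤ M := by
  obtain ⟨N, ⟨hN, h0, h1⟩, hm⟩ := wellFounded_lt.has_min
    {N : Subgroup G | N.Normal ∧ K < N ∧ N ≤ L} ⟨L, hL, h, le_rfl⟩
  have min : ∀ M : Subgroup G, M.Normal → K < M → M ≤ N → N ≤ M := fun M a b c => by
    by_contra e
    exact hm M ⟨a, b, c.trans h1⟩ (lt_of_le_not_ge c e)
  let π := QuotientGroup.mk' K
  have hs := QuotientGroup.mk'_surjective K
  have hπ : ∀ g, π g = 1 ↔ g ∈ K := fun g => QuotientGroup.eq_one_iff g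
  have hN' : (N.map π).Normal := hN.map π hs
  have N0 : N.map π ≠ ⊥ := fun e => h0.not_ge fun n hn =>
    (hπ n).1 (Subgroup.mem_bot.1 (e ▸ Subgroup.mem_map_of_mem π hn))
  have sub : ∀ M : Subgroup (G ⧸ K), M.Normal → M ≤ N.map π → M ≠ ⊥ → N.map π ≤ M :=
    fun M a b c => by
      refine Subgroup.map_le_iff_le_comap.2 (min _ inferInstance ⟨fun k hk => ?_, fun e => c ?_⟩ ?_)
      · show π k ∈ M
        rw [(hπ k).2 hk]; exact M.one_mem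
      · refine eq_bot_iff.2 ?_
        rintro ⟨g⟩ hg
        exact (hπ g).2 (e hg)
      · refine (Subgroup.comap_mono b).trans ?_
        rw [Subgroup.comap_map_eq, QuotientGroup.ker_mk', sup_eq_left.2 h0.le]
  have h2 : ⁅N.map π, N.map π⁆ = ⊥ := by
    by_contra e
    exact (Group.IsSolvable.commutator_lt_of_ne_bot N0).not_ge
      (sub _ inferInstance (Group.IsSolvable.commutator_lt_of_ne_bot N0).le e)
  have h3 : ∀ a ∈ N.map π, ∀ b ∈ N.map π, Commute a b := fun a ha b hb =>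
    commutatorElement_eq_one_iff_commute.1
      (Subgroup.mem_bot.1 (h2 ▸ Subgroup.commutator_mem_commutator ha hb))
  obtain ⟨s, hs, hd⟩ := Nat.exists_prime_and_dvd (((N.map π).one_lt_card_iff_ne_bot).2 N0).ne'
  have := Fact.mk hs
  obtain ⟨x, hx⟩ := exists_prime_orderOf_dvd_card' s hd
  let M : Subgroup (G ⧸ K) :=
    { carrier := {g | g ∈ N.map π ∧ g ^ s = 1}
      one_mem' := ⟨one_mem _, one_pow _⟩
      mul_mem' := fun {a b} ha hb => ⟨mul_mem ha.1 hb.1, by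
        rw [(h3 a ha.1 b hb.1).mul_pow, ha.2, hb.2, one_mul]⟩
      inv_mem' := fun {a} ha => ⟨inv_mem ha.1, by rw [inv_pow, ha.2, inv_one]⟩ }
  have h4 := sub M ⟨fun a ha g => ⟨hN'.conj_mem a ha.1 g, by
    rw [conj_pow, ha.2, mul_one, mul_inv_cancel]⟩⟩ (fun a ha => ha.1) fun h => by
      have h3 : x.1 ∈ M := ⟨x.2, by rw [← hx, ← Subgroup.coe_pow, pow_orderOf_eq_one]; rfl⟩
      rw [h, Subgroup.mem_bot] at h3
      rw [show x = 1 from Subtype.ext h3, orderOf_one] at hx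
      exact hs.one_lt.ne hx
  exact ⟨s, hs, N, hN, h0, h1, fun a ha b hb => (hπ _).1 (commutatorElement_eq_one_iff_commute.2
    (h3 _ (Subgroup.mem_map_of_mem π ha) _ (Subgroup.mem_map_of_mem π hb))),
    fun a ha => (hπ _).1 (h4 (Subgroup.mem_map_of_mem π ha)).2, min⟩

theorem cnt [Finite G] (D F U : Subgroup G) {q : ℕ} (hq : q.Prime) (hU : IsPGroup q U)
    (hF : ∀ a ∈ F, ∀ b ∈ F, a * b * a⁻¹ * b⁻¹ ∈ D) (h1 : ∀ u ∈ U, ∀ n ∈ F, u * n * u⁻¹ ∈ F)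
    (h2 : ∀ u ∈ U, ∀ n ∈ F, n ∈ D → u * n * u⁻¹ ∈ D) :
    ∃ F' : Subgroup G, (∀ n, n ∈ F' ↔ n ∈ F ∧ ∀ u ∈ U, n⁻¹ * u * n * u⁻¹ ∈ D) ∧
      D.relIndex F ≡ D.relIndex F' [MOD q] := by
  have := Fact.mk hq
  have h3 : ∀ a ∈ F, ∀ d ∈ F, d ∈ D → a * d * a⁻¹ ∈ D := fun a ha d hd e => by
    simpa using D.mul_mem (hF a ha d hd) e
  have h4 : ∀ u ∈ U, ∀ n ∈ F, n⁻¹ * u * n * u⁻¹ ∈ F := fun u hu n hn => by
    simpa [mul_assoc] using F.mul_mem (F.inv_mem hn) (h1 u hu n hn)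
  let F' : Subgroup G :=
    { carrier := {n | n ∈ F ∧ ∀ u ∈ U, n⁻¹ * u * n * u⁻¹ ∈ D}
      one_mem' := ⟨F.one_mem, fun u _ => by simp⟩
      mul_mem' := fun {a b} ha hb => ⟨F.mul_mem ha.1 hb.1, fun u hu => by
        simpa [mul_assoc] using D.mul_mem
          (h3 _ (F.inv_mem hb.1) _ (h4 u hu a ha.1) (ha.2 u hu)) (hb.2 u hu)⟩
      inv_mem' := fun {a} ha => ⟨F.inv_mem ha.1, fun u hu => by
        simpa [mul_assoc] using D.inv_mem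
          (h3 _ (h1 u hu a ha.1) _ (h4 u hu a ha.1) (ha.2 u hu))⟩ }
  let _ : MulAction U (F ⧸ D.subgroupOf F) :=
    { smul := fun u => Quotient.map' (fun n : F => (⟨_, h1 u u.2 n n.2⟩ : F)) fun a b e => by
        rw [QuotientGroup.leftRel_apply] at e ⊢
        have := h2 u u.2 _ (a⁻¹ * b).2 e
        show (u.1 * a.1 * u.1⁻¹)⁻¹ * (u.1 * b.1 * u.1⁻¹) ∈ D
        simpa [mul_assoc] using this
      one_smul := by
        rintro ⟨n⟩
        exact congrArg QuotientGroup.mk (Subtype.ext (by simp))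
      mul_smul := by
        rintro u v ⟨n⟩
        exact congrArg QuotientGroup.mk (Subtype.ext (by simp [mul_assoc])) }
  have key : ∀ (u : U) (n : F), u • (n : F ⧸ D.subgroupOf F) = n ↔ n.1⁻¹ * u.1 * n.1 * u.1⁻¹ ∈ D :=
    fun u n => by
      rw [eq_comm]
      refine (QuotientGroup.eq (s := D.subgroupOf F)).trans ?_
      show n.1⁻¹ * (u.1 * n.1 * u.1⁻¹) ∈ D ↔ _
      simp only [mul_assoc]
  refine ⟨F', fun _ => Iff.rfl, (hU.card_modEq_card_fixedPoints _).trans ?_⟩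
  have l : F' ≤ F := fun n hn => hn.1
  rw [show fixedPoints U (F ⧸ D.subgroupOf F) =
    Set.range (Subgroup.quotientSubgroupOfEmbeddingOfLE D l) from ?_,
    Nat.card_range_of_injective (Subgroup.quotientSubgroupOfEmbeddingOfLE D l).injective]
  · rfl
  · ext ⟨n⟩
    constructor
    · exact fun h => ⟨(⟨n, n.2, fun u hu => (key ⟨u, hu⟩ n).1 (h ⟨u, hu⟩)⟩ : F'), rfl⟩
    · rintro ⟨⟨m⟩, e⟩ u
      rw [← e]
      exact (key u ⟨m, m.2.1⟩).2 (m.2.2 u u.2)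

theorem pw [Finite G] (D F : Subgroup G) {p : ℕ} (hp : p.Prime)
    (hF : ∀ a ∈ F, ∀ b ∈ F, a * b * a⁻¹ * b⁻¹ ∈ D) (h : ∀ a ∈ F, a ^ p ∈ D) :
    ∃ i, D.relIndex F = p ^ i := by
  have := Fact.mk hp
  have hn : (D.subgroupOf F).Normal := ⟨fun d hd a => by
    have := D.mul_mem (hF a a.2 d d.2) hd
    show a.1 * d.1 * a.1⁻¹ ∈ D
    simpa using this⟩
  refine IsPGroup.iff_card.1 (show IsPGroup p (F ⧸ D.subgroupOf F) from ?_)
  rintro ⟨a⟩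
  exact ⟨1, by rw [pow_one]; exact (QuotientGroup.eq_one_iff (a ^ p)).2 (h a a.2)⟩

theorem eqN [Finite G] {D F N : Subgroup G} (h1 : D ⊓ N ≤ F) (h2 : F ≤ N)
    (h : D.relIndex N ≤ D.relIndex F) : N ≤ F := by
  have e := Subgroup.relIndex_inf_mul_relIndex D F N
  rw [← Subgroup.inf_relIndex_right (D ⊓ F), inf_right_comm, inf_eq_left.2 h1,
    Subgroup.inf_relIndex_right, inf_eq_left.2 h2] at e
  have h3 : 0 < D.relIndex F := Nat.pos_of_ne_zero Subgroup.index_ne_zero_of_finite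
  have h4 : 0 < F.relIndex N := Nat.pos_of_ne_zero Subgroup.index_ne_zero_of_finite
  exact Subgroup.relIndex_eq_one.1 (by nlinarith)

theorem ar {p r i c : ℕ} (hp : p.Prime) (hr : r.Prime) (h : r ≠ p) (l : c ≤ i)
    (e : p ^ i ≡ p ^ c [MOD r]) : r ∣ p ^ (i - c) - 1 := by
  obtain ⟨k, rfl⟩ := Nat.exists_eq_add_of_le l
  have := (Nat.modEq_iff_dvd' (Nat.pow_le_pow_right hp.pos l)).1 e.symm
  rw [pow_add, ← Nat.mul_sub_one] at this
  rw [Nat.add_sub_cancel_left]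
  exact (((Nat.coprime_primes hr hp).2 h).pow_right c).dvd_of_dvd_mul_left this

theorem irr [Finite G] (D N : Subgroup G) [hN : N.Normal] {p r n b : ℕ} (hp : p.Prime)
    (hr : r.Prime) (hrp : r ≠ p) (H : ∀ e, 0 < e → p ^ (e + 1) ∣ n → ¬r ∣ p ^ e - 1)
    (hn : D.relIndex N ∣ n) (h1 : ∀ a ∈ N, ∀ b ∈ N, a * b * a⁻¹ * b⁻¹ ∈ D)
    (h2 : ∀ a ∈ N, a ^ p ∈ D) (ρ : G) (hρ : ρ ^ r ^ b = 1)
    (h3 : ∀ m ∈ N, m ∈ D → ρ * m * ρ⁻¹ ∈ D) (h4 : ¬∀ m ∈ N, m⁻¹ * ρ * m * ρ⁻¹ ∈ D) :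
    ¬p * D.relIndex N ∣ n ∧ ∀ F : Subgroup G, D ⊓ N ≤ F → F ≤ N →
      (∀ m ∈ F, ρ * m * ρ⁻¹ ∈ F) → F ≤ D ∨ N ≤ F := by
  have hU : IsPGroup r (Subgroup.zpowers ρ) := by
    rintro ⟨_, k, rfl⟩
    refine ⟨b, Subtype.ext ?_⟩
    show (ρ ^ k) ^ r ^ b = 1
    rw [← zpow_natCast, ← zpow_mul, mul_comm, zpow_mul, zpow_natCast, hρ, one_zpow]
  have nm : ∀ F : Subgroup G, (∀ m ∈ F, ρ * m * ρ⁻¹ ∈ F) → ∀ u ∈ Subgroup.zpowers ρ, ∀ m ∈ F,
      u * m * u⁻¹ ∈ F := fun F h u hu m hm => (Subgroup.mem_normalizer_iff.1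
    ((Subgroup.zpowers_le.2 (Subgroup.mem_normalizer_fintype (S := (F : Set G)) h)) hu) m).1 hm
  have key : ∀ F : Subgroup G, F ≤ N → (∀ m ∈ F, ρ * m * ρ⁻¹ ∈ F) → ∃ (F' : Subgroup G) (i c : ℕ),
      (∀ m, m ∈ F' ↔ m ∈ F ∧ ∀ u ∈ Subgroup.zpowers ρ, m⁻¹ * u * m * u⁻¹ ∈ D) ∧
      D.relIndex F = p ^ i ∧ D.relIndex F' = p ^ c ∧ c ≤ i ∧ r ∣ p ^ (i - c) - 1 := fun F l h => by
    obtain ⟨F', e1, e2⟩ := cnt D F _ hr hU (fun a ha b hb => h1 a (l ha) b (l hb)) (nm F h)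
      fun u hu m hm e => (nm (D ⊓ N) (fun m hm => ⟨h3 m hm.2 hm.1, hN.conj_mem m hm.2 ρ⟩) u hu m
        ⟨e, l hm⟩).1
    have l' : F' ≤ F := fun m hm => ((e1 m).1 hm).1
    obtain ⟨i, hi⟩ := pw D F hp (fun a ha b hb => h1 a (l ha) b (l hb)) fun a ha => h2 a (l ha)
    obtain ⟨c, hc⟩ := pw D F' hp (fun a ha b hb => h1 a (l (l' ha)) b (l (l' hb)))
      fun a ha => h2 a (l (l' ha))
    have h5 : c ≤ i := (Nat.pow_le_pow_iff_right hp.one_lt).1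
      (hi ▸ hc ▸ Subgroup.relIndex_le_of_le_right l' Subgroup.index_ne_zero_of_finite)
    exact ⟨F', i, c, e1, hi, hc, h5, ar hp hr hrp h5 (hi ▸ hc ▸ e2)⟩
  obtain ⟨N', f, c, e1, hf, hc, l, e2⟩ := key N le_rfl fun m hm => hN.conj_mem m hm ρ
  have h5 : c < f := by
    by_contra h
    refine h4 fun m hm => ((e1 m).1 (eqN (fun x hx => (e1 x).2 ⟨hx.2, fun u hu => ?_⟩)
      (fun x hx => ((e1 x).1 hx).1) (by
        rw [hf, hc]; exact Nat.pow_le_pow_right hp.pos (not_lt.1 h)) hm)).2 ρ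
          (Subgroup.mem_zpowers ρ)
    simpa [mul_assoc] using D.mul_mem (D.inv_mem hx.1) (nm (D ⊓ N)
      (fun m hm => ⟨h3 m hm.2 hm.1, hN.conj_mem m hm.2 ρ⟩) u hu x hx).1
  have h6 : ∀ e, 0 < e → r ∣ p ^ e - 1 → f ≤ e := fun e e0 h => by
    by_contra k
    exact H e e0 ((pow_dvd_pow p (not_le.1 k)).trans (hf ▸ hn)) h
  have h7 : c = 0 := by have := h6 _ (Nat.sub_pos_of_lt h5) e2; omega
  subst h7
  refine ⟨fun h => H f h5 (by rwa [pow_succ', ← hf]) e2, fun F l1 l2 h => ?_⟩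
  obtain ⟨F', i, c, e3, hi, hc', -, e4⟩ := key F l2 h
  have h8 : c = 0 := by
    have : D.relIndex F' = 1 := Subgroup.relIndex_eq_one.2 fun m hm =>
      Subgroup.relIndex_eq_one.1 hc ((e1 m).2 ⟨l2 ((e3 m).1 hm).1, ((e3 m).1 hm).2⟩)
    exact (Nat.pow_eq_one.1 (hc' ▸ this)).resolve_left hp.one_lt.ne'
  subst h8
  rcases Nat.eq_zero_or_pos i with rfl | i0
  · exact Or.inl (Subgroup.relIndex_eq_one.1 hi)
  · exact Or.inr (eqN l1 l2 (by rw [hf, hi]; exact Nat.pow_le_pow_right hp.pos (h6 i i0 e4)))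

theorem powmod (M E : Subgroup G) (h : ∀ g ∈ E, ∀ m ∈ M, g * m * g⁻¹ ∈ M) {m t : G} (hm : m ∈ M)
    (ht : t ∈ E) (k : ℕ) : (m * t) ^ k * (t ^ k)⁻¹ ∈ M := by
  induction k with
  | zero => simp
  | succ k ih => simpa [pow_succ', mul_assoc] using M.mul_mem hm (h t ht _ ih)

end Pool.Agent.P.MP_6d14ae_al.T
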