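import Pool.Agent.P.MP_6d14ae_al.T.Dat

/-! Elements that act trivially on the translation group of a block; submodule lemmas. -/

set_option autoImplicit false

namespace Pool.Agent.P.MP_6d14ae_al.T

open MulAction
open S hiding Dat Lay c_one c_div facN ext_b triK next chi chi_one

variable {G X A : Type} [Group G] [MulAction G X] [AddCommGroup A] [DistribMulAction G A]
  {K N : Subgroup G} (hK : K.Normal) (hN : N.Normal)

/-- conjugation by `g` is trivial on the translation group of the block of `y` -/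
def tv (N : Subgroup G) (y : X) (g : G) : Prop := ∀ n ∈ N, n⁻¹ * g * n * g⁻¹ ∈ DD K hK y

theorem DD_conj {y : X} {x : G} (h : G) (hx : x ∈ DD K hK y) :
    h * x * h⁻¹ ∈ DD K hK (h • y) := by
  obtain ⟨k, hk, e⟩ := hx
  exact ⟨_, hK.conj_mem k hk h, by simp only [mul_smul, inv_smul_smul, e]⟩

include hN in
theorem tv_conj {y : X} {g : G} (h : G) (hg : tv hK N y g) : tv hK N (h • y) (h * g * h⁻¹) :=
  fun n hn => by simpa [mul_assoc] using DD_conj hK h (hg _ (hN.conj_mem' n hn h))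

theorem norL (h1 : ∀ a ∈ N, ∀ b ∈ N, a * b * a⁻¹ * b⁻¹ ∈ K) (y : X) {k : G} (hk : k ∈ KK X N hN) :
    ∀ m ∈ N, m ∈ DD K hK y → k * m * k⁻¹ ∈ DD K hK y := fun m hm e => by
  obtain ⟨n, hn, e1⟩ := mem_KK.1 (inv_mem hk) y
  have e2 := inv_mul_DD K hK e1
  simpa [mul_assoc] using mul_mem (mul_mem (inv_mem e2)
    (mul_mem (le_DD K hK y (h1 _ (inv_mem hn) m hm)) e)) e2

theorem inK (clo : ∀ g : G, (∀ y : X, ∃ k ∈ K, g • y = k • y) → g ∈ K) {p m : ℕ}
    (h2 : ∀ a ∈ N, a ^ p ∈ K) (hm : m.Coprime p) {w : G} (hw : w ∈ KK X N hN) (e : w ^ m = 1)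
    (h : ∀ y : X, tv hK N y w) : w ∈ K := by
  refine clo w fun y => cop (DD K hK y) hm (e ▸ one_mem _) ?_
  obtain ⟨n, hn, e1⟩ := mem_KK.1 hw y
  let π := QuotientGroup.mk' K
  have h3 : π (n⁻¹ * w * n * w⁻¹) = 1 :=
    (QuotientGroup.eq_one_iff _).2 (clo _ fun z => h z n hn)
  have h4 : Commute (π n⁻¹) (π w) := commutatorElement_eq_one_iff_commute.1 (by
    simpa [commutatorElement_def] using h3)
  have h5 : π ((n⁻¹ * w) ^ p) = π (w ^ p) := by
    rw [map_pow, map_mul, h4.mul_pow, ← map_pow, show π (n⁻¹ ^ p) = 1 from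
      (QuotientGroup.eq_one_iff _).2 (h2 _ (inv_mem hn)), one_mul, map_pow]
  simpa using mul_mem (pow_mem (inv_mul_DD K hK e1) p) (le_DD K hK y (QuotientGroup.eq.1 h5))

/-- the elements that fix a vector modulo a stable subgroup -/
def fx (D : AddSubgroup A) (hD : ∀ (g : G) v, v ∈ D → g • v ∈ D) (v : A) : Subgroup G where
  carrier := {g | g • v - v ∈ D}
  one_mem' := by simp
  mul_mem' := fun {a b} ha hb => by
    have := D.add_mem (hD a _ hb) ha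
    rwa [smul_sub, sub_add_sub_cancel, ← mul_smul] at this
  inv_mem' := fun {a} ha => by
    have := D.neg_mem (hD a⁻¹ _ ha)
    rwa [smul_sub, neg_sub, inv_smul_smul] at this

/-- the vectors fixed modulo a subgroup by a family of elements -/
def fv (D : AddSubgroup A) (T : Set G) : AddSubgroup A :=
  ⨅ g ∈ T, D.comap (DistribSMul.toAddMonoidHom A g - AddMonoidHom.id A)

theorem mem_fv {D : AddSubgroup A} {T : Set G} {v : A} :
    v ∈ fv D T ↔ ∀ g ∈ T, g • v - v ∈ D := by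
  simp [fv, AddSubgroup.mem_iInf]

theorem fv_sta {D : AddSubgroup A} (hD : ∀ (g : G) v, v ∈ D → g • v ∈ D) {T : Set G}
    (hT : ∀ t ∈ T, ∀ g, g⁻¹ * t * g ∈ T) (g : G) (v : A) (hv : v ∈ fv D T) : g • v ∈ fv D T :=
  mem_fv.2 fun t ht => by
    simpa [smul_sub, mul_smul] using hD g _ (mem_fv.1 hv _ (hT t ht g))

theorem le_fv {D : AddSubgroup A} (hD : ∀ (g : G) v, v ∈ D → g • v ∈ D) (T : Set G) :
    D ≤ fv D T := fun v hv => mem_fv.2 fun g _ => D.sub_mem (hD g v hv) hv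

variable {d : Dat G X A}

theorem all_b [IsPretransitive G X] {D : AddSubgroup A} (hD : ∀ (g : G) v, v ∈ D → g • v ∈ D)
    {M : Subgroup G} (hM : M.Normal) (x : X) (h : ∀ m ∈ M, m • d.b x - d.b x ∈ D) :
    ∀ m ∈ M, ∀ v, m • v - v ∈ D := fun m hm => ext_b d D m fun y => by
  obtain ⟨g, rfl⟩ := exists_smul_eq G x y
  simpa [smul_sub, mul_smul, d.hb] using hD g _ (h _ (hM.conj_mem' m hm g))

theorem com {B J : AddSubgroup A} (I : Lay d K B) (hl : K < N)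
    (min : ∀ M : Subgroup G, M.Normal → K < M → M ≤ N → N ≤ M)
    (ex : ∃ ρ ∈ KK X N hN, ∃ n ∈ N, n⁻¹ * ρ * n * ρ⁻¹ ∉ K)
    (hJ : ∀ (g : G) v, v ∈ J → g • v ∈ J) (l : B ≤ J) (h : ∀ n ∈ N, ∀ v, n • v - v ∈ J) :
    ∀ n ∈ N, d.c n ∈ J := by
  have hL : ∀ k ∈ KK X N hN, ∀ v, k • v - v ∈ J := fun k hk => ext_b d J k fun y => by
    obtain ⟨n, hn, e⟩ := mem_KK.1 hk y
    rw [← d.hb, e, d.hb]
    exact h n hn _
  have ci : ∀ g, d.c g⁻¹ = -(g⁻¹ • d.c g) := fun g => by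
    simpa [c_one] using c_div d g 1
  let M : Subgroup G :=
    { carrier := {n | n ∈ N ∧ d.c n ∈ J}
      one_mem' := ⟨N.one_mem, by simp [c_one]⟩
      mul_mem' := fun {a b} ha hb => ⟨N.mul_mem ha.1 hb.1, by
        rw [d.hc]; exact J.add_mem ha.2 (hJ _ _ hb.2)⟩
      inv_mem' := fun {a} ha => ⟨N.inv_mem ha.1, by rw [ci]; exact J.neg_mem (hJ _ _ ha.2)⟩ }
  obtain ⟨ρ, hρ, n, hn, e⟩ := ex
  have hle : N ≤ KK X N hN := fun n hn => mem_KK.2 fun y => ⟨n, hn, rfl⟩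
  refine fun m hm => (min M ⟨fun a ha g => ⟨hN.conj_mem a ha.1 g, ?_⟩⟩
    ⟨fun k hk => ⟨hl.le hk, l (cK I hk)⟩, fun k => e (k ⟨?_, ?_⟩)⟩ (fun a ha => ha.1) hm).2
  · have := J.add_mem (hJ g _ ha.2) (hJ g _ (h a ha.1 (d.c g⁻¹)))
    rw [d.hc, d.hc, mul_smul]
    convert this using 1
    rw [smul_sub, ci g, smul_neg g, smul_inv_smul]; abel
  · simpa [mul_assoc] using mul_mem (inv_mem hn) (hN.conj_mem n hn ρ)
  · exact (chi_one (d := d) (L := KK X N hN)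
      (k := ⟨n, hle hn⟩⁻¹ * ⟨ρ, hρ⟩ * ⟨n, hle hn⟩ * ⟨ρ, hρ⟩⁻¹) (h := hL)).1 (by
      simp only [map_mul, map_inv, inv_mul_cancel_comm, mul_inv_cancel])

theorem fixq [Finite A] {p a : ℕ} (hp : p.Prime) (hA : ∀ v : A, p ^ a • v = 0) (U : Subgroup G)
    (hU : IsPGroup p U) {D : AddSubgroup A} (hD : ∀ (g : G) v, v ∈ D → g • v ∈ D) (h : D ≠ ⊤) :
    ∃ v, v ∉ D ∧ ∀ u ∈ U, u • v - v ∈ D := by
  have := Fact.mk hp
  let _ : MulAction U (A ⧸ D) :=
    { smul := fun u => QuotientAddGroup.map D D (DistribSMul.toAddMonoidHom A u.1) (hD u)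
      one_smul := by
        rintro ⟨v⟩
        exact congrArg QuotientAddGroup.mk (one_smul G v)
      mul_smul := by
        rintro u u' ⟨v⟩
        exact congrArg QuotientAddGroup.mk (mul_smul u.1 u'.1 v) }
  have : Nontrivial (A ⧸ D) := QuotientAddGroup.nontrivial_iff.2 h
  obtain ⟨⟨x⟩, hx⟩ := exists_ne (0 : A ⧸ D)
  obtain ⟨i, -, hi⟩ := (Nat.dvd_prime_pow hp).1 (addOrderOf_dvd_of_nsmul_eq_zero
    (show p ^ a • (x : A ⧸ D) = 0 by rw [← QuotientAddGroup.mk_nsmul, hA]; rfl))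
  obtain ⟨⟨v⟩, hv, e⟩ := hU.exists_fixed_point_of_prime_dvd_card_of_fixed_point (A ⧸ D)
    ((dvd_pow_self p fun e => hx (AddMonoid.addOrderOf_eq_one_iff.1 (by
      rw [e, pow_zero] at hi; exact hi))).trans (hi ▸ addOrderOf_dvd_natCard _))
    (a := 0) fun u => congrArg QuotientAddGroup.mk (smul_zero u.1)
  refine ⟨v, fun k => e ((QuotientAddGroup.eq_zero_iff v).2 k).symm, fun u hu => ?_⟩
  have := QuotientAddGroup.eq.1 (hv ⟨u, hu⟩).symm
  rwa [neg_add_eq_sub] at this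

end Pool.Agent.P.MP_6d14ae_al.T
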