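import Pool.Agent.P.MP_6d14ae_al.T.Core

/-! Primes that divide the order of the group and not the degree. -/

set_option autoImplicit false

namespace Pool.Agent.P.MP_6d14ae_al.T

open MulAction J

variable {G X E : Type} [Group G] [Finite G] [MulAction G X] [AddCommGroup E]
  [DistribMulAction G E] (κ : G ≃ E)
  (hκ : ∀ g h, κ (g * h) = κ g + g • κ h) (a : X → E) (ha : ∀ (g : G) x, a (g • x) = g • a x)
  (hg : AddSubgroup.closure (Set.range a) = ⊤)

include hκ ha hg

theorem mkd {N1 N2 : ℕ} (hG : Nat.card G = N1 * N2) (hc : N1.Coprime N2) :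
    letI := S.tact (G := G) (E := E) N2
    ∃ d : Dat G X (tor E N2), d.N1 = N1 ∧ d.N2 = N2 ∧ d.W = sub κ hκ N2 ∧
      ∀ g, κ g ∈ tor E N1 → d.c g = 0 := by
  let _ := S.tact (G := G) (E := E) N2
  have hE : Nat.card E = N1 * N2 := (Nat.card_congr κ).symm.trans hG
  have h1 := (card_sub κ hκ hc hG).1
  have h2 := (card_sub κ hκ hc.symm (hG.trans (mul_comm _ _))).1
  obtain ⟨α, β, hαβ⟩ := Nat.isCoprime_iff_coprime.2 hc
  have hd : ∀ e : E, α • N1 • e + β • N2 • e = e := fun e => by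
    rw [← natCast_zsmul, ← natCast_zsmul, ← mul_smul, ← mul_smul, ← add_smul, hαβ, one_smul]
  have hk : ∀ e : E, N1 • N2 • e = 0 := fun e => by
    rw [← mul_nsmul', ← hE, card_nsmul_eq_zero']
  let pr : E →+ tor E N2 := ((zsmulAddGroupHom α : E →+ E).comp
    (nsmulAddMonoidHom N1 : E →+ E)).codRestrict _
    fun e => show N2 • α • N1 • e = 0 by rw [smul_comm, smul_comm N2, hk, smul_zero]
  have hp : ∀ v : tor E N2, pr v = v := fun v => Subtype.ext (by
    have := hd v.1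
    rwa [mem_tor.1 v.2, smul_zero, add_zero] at this)
  have hs : ∀ (g : G) e, pr (g • e) = g • pr e := fun g e => Subtype.ext (by
    show α • N1 • g • e = g • α • N1 • e
    rw [smul_comm g, smul_comm g])
  refine ⟨{ c := fun g => pr (κ g), W := sub κ hκ N2, N1 := N1, N2 := N2, b := fun x => pr (a x)
            hc := fun g h => by rw [hκ, map_add, hs]
            hs := fun v => ⟨κ.symm v, show κ _ ∈ tor E N2 by simp, by simp [hp]⟩
            hW := fun w hw => congrArg Subtype.val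
              (h2 ▸ pow_card_eq_one' (x := (⟨w, hw⟩ : sub κ hκ N2)))
            hP := fun g e => congrArg Subtype.val (h1 ▸ pow_card_eq_one'
              (x := (⟨g, show N1 • κ g = 0 by
                rw [← hd (κ g), show α • N1 • κ g = 0 from congrArg Subtype.val e, zero_add,
                  smul_comm, hk, smul_zero]⟩ : sub κ hκ N1)))
            hco := hc
            hb := fun g x => by rw [ha, hs]
            hg := by
              rw [show (fun x => pr (a x)) = pr ∘ a from rfl, Set.range_comp,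
                ← AddMonoidHom.map_closure, hg]
              exact AddSubgroup.map_top_of_surjective _ fun v => ⟨v, hp v⟩ },
    rfl, rfl, rfl, fun g h => Subtype.ext ?_⟩
  show α • N1 • κ g = 0
  rw [mem_tor.1 h, smul_zero]

omit [Finite G] ha hg in
theorem swap {M N : ℕ} {w u : G} (hw : w ∈ sub κ hκ M) (hu : u ∈ sub κ hκ N) :
    ∃ u' ∈ sub κ hκ N, ∃ w' ∈ sub κ hκ M, w * u = u' * w' := by
  refine ⟨κ.symm (w • κ u), ?_, κ.symm ((κ.symm (w • κ u))⁻¹ • κ w), ?_, κ.injective ?_⟩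
  · show κ _ ∈ tor E N
    rw [κ.apply_symm_apply]; exact tor_smul _ hu
  · show κ _ ∈ tor E M
    rw [κ.apply_symm_apply]; exact tor_smul _ hw
  · rw [hκ, hκ, κ.apply_symm_apply, κ.apply_symm_apply, smul_inv_smul, add_comm]

theorem sing [FaithfulSMul G X] [IsPretransitive G X] {r : ℕ} (hr : r.Prime)
    (h1 : r ∣ Nat.card G) (h2 : ¬r ∣ Nat.card X) :
    ∃ p e : ℕ, p.Prime ∧ 0 < e ∧ p ^ (e + 1) ∣ Nat.card X ∧ r ∣ p ^ e - 1 := by
  by_contra! H
  have := solv κ hκ
  have sp : ∀ q : ℕ, q.Prime → ∃ j N, Nat.card G = N * q ^ j ∧ N.Coprime q := fun q hq => by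
    obtain ⟨j, N, k1, k2⟩ :=
      Nat.exists_eq_pow_mul_and_not_dvd (Nat.card_pos (α := G)).ne' q hq.one_lt.ne'
    exact ⟨j, N, k2.trans (mul_comm _ _), (hq.coprime_iff_not_dvd.2 k1).symm⟩
  obtain ⟨b, M, hM, cM⟩ := sp r hr
  let _ := S.tact (G := G) (E := E) (r ^ b)
  obtain ⟨d, -, d2, d3, d4⟩ := mkd κ hκ a ha hg hM (cM.pow_right b)
  obtain ⟨K, N, B, p, hN, I, hp, pn, k1, k2, k3, k4, k5, k6, k7⟩ := find (d := d)
    (by rw [d2]; exact (hr.coprime_iff_not_dvd.2 h2).pow_left b) ⊥ ⊥ (lay_bot d) fun h => by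
      have := (card_sub κ hκ (cM.pow_right b).symm (hM.trans (mul_comm _ _))).1
      rw [← d3, le_bot_iff.1 h, Subgroup.card_bot] at this
      rw [hM, ← this, mul_one] at h1
      exact hr.one_lt.ne' (Nat.eq_one_of_dvd_coprimes cM h1 dvd_rfl)
  have hrp : r ≠ p := fun e => h2 (e ▸ pn)
  obtain ⟨j, L, hL, cL⟩ := sp p hp
  let _ := S.tact (G := G) (E := E) (p ^ j)
  obtain ⟨e, e1, e2, e3, -⟩ := mkd κ hκ a ha hg hL (cL.pow_right j)
  refine core d e hr hp hrp d2 e2 (e1 ▸ cL) (fun v => Subtype.ext v.2) (fun i => H p i hp)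
    (fun u hu => d4 u ?_) (fun g => ?_) hN I k1 k2 k3 k4 k5 k6 k7
  · obtain ⟨t, ht⟩ := (Nat.coprime_pow_primes j b hp hr hrp.symm).dvd_of_dvd_mul_right
      (hM ▸ hL ▸ dvd_mul_left _ _)
    rw [e3] at hu
    rw [mem_tor, ht, mul_nsmul, show p ^ j • κ u = 0 from hu, smul_zero]
  · rw [d3, e3]
    exact ⟨fun ⟨w, hw, u, hu, h⟩ => h ▸ swap κ hκ hw hu, fun ⟨u, hu, w, hw, h⟩ => h ▸ swap κ hκ hu hw⟩

end Pool.Agent.P.MP_6d14ae_al.T
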